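import Mathlib
import Pool.Agent.TH7.DH.Abs

set_option autoImplicit false

/-!
# Iterated means of kernels
-/

namespace Pool.Agent.U60.PT

open Finset Filter Topology Pool.Agent.TH7.DH

lemma mean_bd {a : ℕ → ℝ} {B : ℝ} (h : ∀ n, |a n| ≤ B) : |mean a| ≤ B := by
  have h1 := mean_mono (bdd_const (-B)) ⟨B, h⟩ fun n => (abs_le.1 (h n)).1
  have h2 := mean_mono ⟨B, h⟩ (bdd_const B) fun n => (abs_le.1 (h n)).2
  rw [mean_const] at h1 h2
  exact abs_le.2 ⟨h1, h2⟩

/-- choice of a sequence with small sums of a kernel -/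
lemma pot {G : ℕ → ℕ → ℝ} {B : ℝ} (hG : ∀ x y, |G x y| ≤ B) {ε : ℝ} (hε : 0 < ε) (n : ℕ)
    (k : ℕ) (hk : k ≤ n + 1) :
    ∃ u : ℕ → ℕ, (∀ i < k, 1 ≤ u i) ∧ (∀ i j, i < j → j < k → u i < u j) ∧
      ∑ j ∈ range k, ∑ i ∈ range j, G (u i) (u j)
        + ((n : ℝ) + 1 - k) * ∑ i ∈ range k, mean (G (u i))
        ≤ (∑ j ∈ range k, ((n : ℝ) - j)) * mean (fun x => mean (G x)) + k * ε := by
  induction k with
  | zero => exact ⟨fun _ => 0, fun i hi => by omega, fun i j _ hj => by omega, by simp⟩
  | succ k ih =>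
    obtain ⟨u, h1, hu, hs⟩ := ih (by omega)
    have hg : ∀ x, |mean (G x)| ≤ B := fun x => mean_bd (hG x)
    have hb : ∀ i, Bdd (fun y => G (u i) y) := fun i => ⟨B, fun y => hG _ _⟩
    have hbg : Bdd (fun y => mean (G y)) := ⟨B, hg⟩
    have hm : mean (fun y => ∑ i ∈ range k, G (u i) y + ((n : ℝ) - k) * mean (G y))
        = ∑ i ∈ range k, mean (G (u i)) + ((n : ℝ) - k) * mean (fun x => mean (G x)) := by
      rw [mean_add (bdd_sum (range k) (fun i y => G (u i) y) fun i _ => hb i) (hbg.smul _),
        mean_sum (range k) (fun i y => G (u i) y) fun i _ => hb i, mean_smul _ hbg]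
    obtain ⟨x, hx0, hx⟩ := exists_le_of_mean
      ((bdd_sum (range k) (fun i y => G (u i) y) fun i _ => hb i).add (hbg.smul ((n : ℝ) - k)))
      hm.le hε (∑ i ∈ range k, u i + 1)
    refine ⟨fun i => if i = k then x else u i, ?_, ?_, ?_⟩
    · intro i hi
      rcases Nat.lt_or_ge i k with h | h
      · have h2 : i ≠ k := by omega
        simp only [h2, if_false]
        exact h1 i h
      · have h2 : i = k := by omega
        simp only [h2, if_true]
        omega
    · intro i j hij hj
      have h2 : i ≠ k := by omega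
      rcases Nat.lt_or_ge j k with h | h
      · have h3 : j ≠ k := by omega
        simp only [h2, h3, if_false]
        exact hu i j hij h
      · have h3 : j = k := by omega
        simp only [h2, h3, if_true, if_false]
        have h4 : u i ≤ ∑ i ∈ range k, u i :=
          single_le_sum (f := u) (fun _ _ => Nat.zero_le _) (mem_range.2 (by omega))
        omega
    · have e1 : ∀ j ∈ range k, ∑ i ∈ range j, G ((fun i => if i = k then x else u i) i)
          ((fun i => if i = k then x else u i) j) = ∑ i ∈ range j, G (u i) (u j) := by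
        intro j hj
        have hj' := mem_range.1 hj
        refine sum_congr rfl fun i hi => ?_
        have hi' := mem_range.1 hi
        have h2 : i ≠ k := by omega
        have h3 : j ≠ k := by omega
        simp only [h2, h3, if_false]
      have e2 : ∑ i ∈ range k, G ((fun i => if i = k then x else u i) i)
          ((fun i => if i = k then x else u i) k) = ∑ i ∈ range k, G (u i) x := by
        refine sum_congr rfl fun i hi => ?_
        have hi' := mem_range.1 hi
        have h2 : i ≠ k := by omega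
        simp only [h2, if_true, if_false]
      have e3 : ∑ i ∈ range k, mean (G ((fun i => if i = k then x else u i) i))
          = ∑ i ∈ range k, mean (G (u i)) := by
        refine sum_congr rfl fun i hi => ?_
        have hi' := mem_range.1 hi
        have h2 : i ≠ k := by omega
        simp only [h2, if_false]
      have e4 : mean (G ((fun i => if i = k then x else u i) k)) = mean (G x) := by
        simp only [if_true]
      rw [sum_range_succ, sum_congr rfl e1, e2, sum_range_succ (fun i =>
        mean (G ((fun i => if i = k then x else u i) i))), e3, e4,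
        sum_range_succ (fun j => ((n : ℝ) - (j : ℝ)))]
      push_cast
      nlinarith

/-- lower bounds for the sums over all sequences give the sign of the iterated mean -/
theorem mean_nonneg {G : ℕ → ℕ → ℝ} {B C : ℝ} (hG : ∀ x y, |G x y| ≤ B)
    (h : ∀ (n : ℕ) (u : ℕ → ℕ), (∀ i ≤ n, 1 ≤ u i) → (∀ i j, i < j → j ≤ n → u i < u j) →
      -(C * ((n : ℝ) + 1)) ≤ ∑ j ∈ range (n + 1), ∑ i ∈ range j, G (u i) (u j)) :
    0 ≤ mean (fun x => mean (G x)) := by
  by_contra hcon
  push Not at hcon
  set m := mean (fun x => mean (G x)) with hm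
  obtain ⟨n, hn⟩ := exists_nat_gt (2 * (C + 1) / (-m))
  obtain ⟨u, h1, hu, hs⟩ := pot hG one_pos n (n + 1) le_rfl
  have h2 := h n u (fun i hi => h1 i (by omega)) (fun i j hij hj => hu i j hij (by omega))
  have h3 : ∑ j ∈ range (n + 1), ((n : ℝ) - j) = (n : ℝ) * (n + 1) / 2 := by
    have h7 := Finset.sum_range_id_mul_two (n + 1)
    have h9 : (∑ i ∈ range (n + 1), i) * 2 = (n + 1) * n := by
      rw [h7, Nat.add_sub_cancel]
    have h8 : ((∑ i ∈ range (n + 1), i : ℕ) : ℝ) * 2 = ((n + 1 : ℕ) : ℝ) * ((n : ℕ) : ℝ) := by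
      exact_mod_cast h9
    push_cast at h8
    rw [sum_sub_distrib, sum_const, card_range, nsmul_eq_mul]
    push_cast
    linarith
  rw [h3, ← hm] at hs
  push_cast at hs
  have h4 : (n : ℝ) + 1 - (n + 1) = 0 := by ring
  rw [h4, zero_mul, add_zero] at hs
  have hn0 : (0 : ℝ) < (n : ℝ) + 1 := by positivity
  have h5 : -(C * ((n : ℝ) + 1)) ≤ (n : ℝ) * (n + 1) / 2 * m + (n + 1) * 1 := h2.trans hs
  have h6 : -C ≤ (n : ℝ) / 2 * m + 1 := by
    refine le_of_mul_le_mul_right ?_ hn0
    nlinarith
  rw [div_lt_iff₀ (by linarith)] at hn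
  linarith

end Pool.Agent.U60.PT
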