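import Mathlib
import Pool.Agent.TH635.BV.Chain
import Pool.Agent.TH635.BV.Ineq
import Pool.Agent.R814.PHJ.Main
import Pool.Agent.U60.PT.Pot

set_option autoImplicit false

/-!
# Comparison of the kernel of two disjoint squares with the kernel of the empty set and two squares
-/

namespace Pool.Agent.U60.PT

open Finset Filter Topology Pool.Agent.TH7.DH Pool.Agent.TH635.BV
open Pool.Agent.R814.PHJ (raw PL PR psd2 K_symm v_nonneg)

lemma link (X : Fam) {M : ℕ} (p q : ℕ → ℕ → Prop) :
    X.E (Fin M) (fun U => f U p * f U q) = (raw X.V X.hV X.S).K (Fin M) (pt M p) (pt M q) := by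
  classical
  unfold Fam.E Sys.K
  congr 1
  funext N
  unfold LN KN
  congr 1
  funext φ
  congr 1
  funext A
  change f _ p * f _ q = ind (X.S N) (ow φ (pt M p) A) * ind (X.S N) (ow φ (pt M q) A)
  unfold f ind
  by_cases h1 : ow φ (pt M p) A ∈ X.S N <;> by_cases h2 : ow φ (pt M q) A ∈ X.S N <;>
    simp [h1, h2]

lemma pl_iff {a y : ℕ} (c : Fin 2 → Fin a ⊕ Fin y) :
    pt (a + y) (LL a) (fun t => finSumFinEquiv (c t)) ↔ PL a y c := by
  unfold pt LL PL
  rw [Fin.forall_fin_two]
  rcases h0 : c 0 with x | x <;> rcases h1 : c 1 with z | z <;> simp [h0, h1]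

lemma pr_iff {a y : ℕ} (c : Fin 2 → Fin a ⊕ Fin y) :
    pt (a + y) (RR a) (fun t => finSumFinEquiv (c t)) ↔ PR a y c := by
  unfold pt RR PR
  rw [Fin.forall_fin_two]
  rcases h0 : c 0 with x | x <;> rcases h1 : c 1 with z | z <;> simp [h0, h1]

lemma K_eq (X : Fam) (a y : ℕ) : X.K a y = Pool.Agent.R814.PHJ.X (raw X.V X.hV X.S) a y := by
  unfold Fam.K Pool.Agent.R814.PHJ.X
  rw [link, ← (raw X.V X.hV X.S).K_equiv (finSumFinEquiv (m := a) (n := y))]
  exact (raw X.V X.hV X.S).K_congr pl_iff pr_iff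

lemma g_eq (X : Fam) (a y : ℕ) : X.g a y = Pool.Agent.R814.PHJ.X' (raw X.V X.hV X.S) a y := by
  unfold Fam.g Pool.Agent.R814.PHJ.X'
  rw [link, K_symm _ rfl, ← (raw X.V X.hV X.S).K_equiv (finSumFinEquiv (m := a) (n := y))]
  refine (raw X.V X.hV X.S).K_congr (fun c => ?_) (fun c => ?_)
  · unfold pt TH635.BV.Bot
    exact Iff.rfl
  · rw [← pl_iff, ← pr_iff]
    unfold pt DD LL RR
    exact Iff.rfl

lemma K_comm (X : Fam) (a y : ℕ) : X.K a y = X.K y a := by
  have h := X.pair (M := y + a) (a := y) (b := a) (c := 0) (u := y) le_rfl (by omega)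
    (Or.inr (by omega)) (RR y) (LL y) (LL a) (RR a) ?_ ?_ ?_
  · unfold Fam.K
    rw [← h]
    congr 1
    funext U
    ring
  · intro i j hi hj
    unfold sh LL RR
    split_ifs <;> omega
  · intro i j hi hj
    unfold sh LL RR
    split_ifs <;> omega
  · intro i j hi hj h
    unfold LL RR
    omega

lemma g_comm (X : Fam) (a y : ℕ) : X.g a y = X.g y a := by
  have h := X.pair (M := y + a) (a := y) (b := a) (c := 0) (u := y) le_rfl (by omega)
    (Or.inr (by omega)) (DD y) Bot (DD a) Bot ?_ ?_ ?_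
  · unfold Fam.g
    rw [← h]
  · intro i j hi hj
    unfold sh DD
    split_ifs <;> omega
  · intro i j hi hj
    exact Iff.rfl
  · intro i j hi hj h
    unfold DD TH635.BV.Bot
    omega

lemma sqsum (F : ℕ → ℕ → ℝ) (m : ℕ) : ∑ i ∈ range m, ∑ j ∈ range m, F i j
    = ∑ i ∈ range m, F i i + ∑ j ∈ range m, ∑ i ∈ range j, (F i j + F j i) := by
  induction m with
  | zero => simp
  | succ m ih =>
    have h1 : ∑ i ∈ range (m + 1), ∑ j ∈ range (m + 1), F i j
        = (∑ i ∈ range m, ∑ j ∈ range m, F i j + ∑ i ∈ range m, F i m)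
          + (∑ j ∈ range m, F m j + F m m) := by
      rw [sum_range_succ, sum_range_succ (fun j => F m j)]
      congr 1
      rw [← sum_add_distrib]
      exact sum_congr rfl fun i _ => sum_range_succ _ _
    rw [h1, ih, sum_range_succ (fun i => F i i), sum_range_succ (fun j =>
      ∑ i ∈ range j, (F i j + F j i)), sum_add_distrib]
    ring

lemma abs_K (X : Fam) (a y : ℕ) : |X.K a y| ≤ 1 := X.E_pair_abs _ _
lemma abs_g (X : Fam) (a y : ℕ) : |X.g a y| ≤ 1 := X.E_pair_abs _ _

lemma K_nonneg (X : Fam) (hX : X.Bad) (a y : ℕ) : 0 ≤ X.K a y := by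
  have h := X.E_mono hX (ι := Fin (a + y)) (Ψ := fun _ => 0)
    (Ψ' := fun U => f U (LL a) * f U (RR a)) fun U _ => by
      rcases f01 U (LL a) with h | h <;> rcases f01 U (RR a) with h' | h' <;> rw [h, h'] <;>
        norm_num
  rwa [X.E_const] at h

lemma g_nonneg (X : Fam) (hX : X.Bad) (a y : ℕ) : 0 ≤ X.g a y := by
  have h := X.E_mono hX (ι := Fin (a + y)) (Ψ := fun _ => 0)
    (Ψ' := fun U => f U (DD a) * f U Bot) fun U _ => by
      rcases f01 U (DD a) with h | h <;> rcases f01 U Bot with h' | h' <;> rw [h, h'] <;>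
        norm_num
  rwa [X.E_const] at h

/-- The mean of the kernel of the empty set and two disjoint squares is at most the mean of the
kernel of two disjoint squares. -/
theorem gm_le (X : Fam) (hX : X.Bad) : mean X.gm ≤ mean X.Km := by
  have key : 0 ≤ mean (fun x => mean (fun y => X.K x y + (-1) * X.g x y)) := by
    refine mean_nonneg (B := 2) (C := 1) (fun x y => ?_) ?_
    · have h1 := abs_le.1 (abs_K X x y)
      have h2 := abs_le.1 (abs_g X x y)
      rw [abs_le]
      constructor <;> linarith [h1.1, h1.2, h2.1, h2.2]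
    · intro n u _ _
      have h1 := psd2 (V := X.V) (hV := X.hV) (S := X.S) (by norm_num : 1 ≤ 2) (n + 1)
        (fun i => u i)
      simp only [← K_eq, ← g_eq] at h1
      have hv1 : (raw X.V X.hV X.S).v ≤ 1 := Pool.Agent.R814.PHJ.v_le
      rw [Finset.sum_range fun i => (∑ j ∈ range i, (X.K (u j) (u i) + (-1) * X.g (u j) (u i)))]
      have e1 : ∀ F : ℕ → ℕ → ℝ, ∑ g : Fin (n + 1), ∑ a : Fin (n + 1), F (g : ℕ) (a : ℕ)
          = ∑ i ∈ range (n + 1), ∑ j ∈ range (n + 1), F i j := by
        intro F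
        rw [Finset.sum_range]
        refine sum_congr rfl fun i _ => ?_
        rw [Finset.sum_range]
      rw [e1 (fun i j => X.g (u i) (u j)), e1 (fun i j => X.K (u i) (u j)),
        sqsum (fun i j => X.g (u i) (u j)), sqsum (fun i j => X.K (u i) (u j))] at h1
      rw [← Finset.sum_range fun i => (∑ j ∈ range i, (X.K (u j) (u i) + (-1) * X.g (u j) (u i)))]
      have e2 : ∀ j ∈ range (n + 1), ∑ i ∈ range j, (X.g (u i) (u j) + X.g (u j) (u i))
          = 2 * ∑ i ∈ range j, X.g (u i) (u j) := by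
        intro j _
        rw [mul_sum]
        refine sum_congr rfl fun i _ => ?_
        rw [g_comm X (u j) (u i)]
        ring
      have e3 : ∀ j ∈ range (n + 1), ∑ i ∈ range j, (X.K (u i) (u j) + X.K (u j) (u i))
          = 2 * ∑ i ∈ range j, X.K (u i) (u j) := by
        intro j _
        rw [mul_sum]
        refine sum_congr rfl fun i _ => ?_
        rw [K_comm X (u j) (u i)]
        ring
      rw [sum_congr rfl e2, sum_congr rfl e3, ← mul_sum, ← mul_sum] at h1
      have h2 : 0 ≤ ∑ i ∈ range (n + 1), X.g (u i) (u i) :=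
        sum_nonneg fun i _ => g_nonneg X hX _ _
      have h3 : ∑ i ∈ range (n + 1), X.K (u i) (u i) ≤ (n : ℝ) + 1 := by
        refine (sum_le_sum fun i _ => (abs_le.1 (abs_K X (u i) (u i))).2).trans (le_of_eq ?_)
        rw [sum_const, card_range, nsmul_eq_mul]
        push_cast
        ring
      have h4 : ∑ j ∈ range (n + 1), ∑ i ∈ range j, (X.K (u i) (u j) + (-1) * X.g (u i) (u j))
          = ∑ j ∈ range (n + 1), ∑ i ∈ range j, X.K (u i) (u j)
            - ∑ j ∈ range (n + 1), ∑ i ∈ range j, X.g (u i) (u j) := by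
        rw [← sum_sub_distrib]
        refine sum_congr rfl fun j _ => ?_
        rw [← sum_sub_distrib]
        refine sum_congr rfl fun i _ => ?_
        ring
      rw [h4]
      push_cast at h1
      have hn : (0 : ℝ) < (n : ℝ) + 1 := by positivity
      nlinarith
  have e : (fun x => mean (fun y => X.K x y + (-1) * X.g x y))
      = fun x => X.Km x + (-1) * X.gm x := by
    funext x
    rw [mean_add (X.K_bdd x) ((X.g_bdd x).smul (-1)), mean_smul _ (X.g_bdd x)]
    rfl
  rw [e, mean_add X.Km_bdd (X.gm_bdd.smul (-1)), mean_smul _ X.gm_bdd] at key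
  linarith

end Pool.Agent.U60.PT
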