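import Mathlib
import Pool.Agent.U60.PT.Link

set_option autoImplicit false

/-!
# Nested squares with the small square fixed first, and their complements
-/

namespace Pool.Agent.U60.PT

open Finset Filter Topology Pool.Agent.TH7.DH Pool.Agent.TH635.BV

variable (X : Fam)

/-- `A²` and `(A ∪ Y)²` -/
noncomputable def kγ (X : Fam) (a y : ℕ) : ℝ :=
  X.E (Fin (a + y)) (fun U => f U (LL a) * f U Top)
/-- `(A ∪ Y)²` minus `A²`, and the empty set -/
noncomputable def kc (X : Fam) (a y : ℕ) : ℝ :=
  X.E (Fin (a + y)) (fun U => f U (NL a) * f U Bot)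

lemma abs_kγ (a y : ℕ) : |kγ X a y| ≤ 1 := X.E_pair_abs _ _
lemma abs_kc (a y : ℕ) : |kc X a y| ≤ 1 := X.E_pair_abs _ _
lemma kγ_bdd (a : ℕ) : Bdd (kγ X a) := ⟨1, fun _ => abs_kγ X _ _⟩
lemma kc_bdd (a : ℕ) : Bdd (kc X a) := ⟨1, fun _ => abs_kc X _ _⟩

noncomputable def mγ (X : Fam) (a : ℕ) : ℝ := mean (kγ X a)
noncomputable def mc (X : Fam) (a : ℕ) : ℝ := mean (kc X a)
lemma mγ_bdd : Bdd (mγ X) := ⟨1, fun _ => mean_abs fun _ => abs_kγ X _ _⟩
lemma mc_bdd : Bdd (mc X) := ⟨1, fun _ => mean_abs fun _ => abs_kc X _ _⟩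

/-- the mean of a function of a difference -/
lemma mean_sub_shift {ρ : ℕ → ℝ} (hρ : Bdd ρ) (x : ℕ) : mean (fun y => ρ (y - x)) = mean ρ := by
  have hb : Bdd (fun y => ρ (y - x)) := by
    obtain ⟨B, hB⟩ := hρ
    exact ⟨B, fun y => hB _⟩
  rw [← mean_shift x hb]
  congr 1
  funext y
  rw [Nat.add_sub_cancel]

lemma nestL {M c x x' : ℕ} (hx : x ≤ x') (hM : c + x' ≤ M) :
    X.E (Fin M) (fun U => f U (qp c Bot x) * f U (qp c Bot x')) = kγ X x (x' - x) := by
  refine X.pair (a := c) (b := x) (c := c + x) (u := x' - x) (by omega) (by omega)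
    (Or.inl le_rfl) (qp c Bot x) (qp c Bot x') (LL x) Top ?_ ?_ ?_
  · intro i j hi hj
    simp only [qp, TH635.BV.Bot, or_false]
    unfold sh LL
    split_ifs <;> omega
  · intro i j hi hj
    simp only [qp, TH635.BV.Bot, or_false, TH635.BV.Top, iff_true]
    unfold sh
    split_ifs <;> omega
  · intro i j hi hj h
    simp only [qp, TH635.BV.Bot, or_false]
    omega

/-- The mean of the kernel of disjoint squares is at most the mean of the kernel of nested squares,
the small one fixed first. -/
theorem Km_le_mγ (hX : X.Bad) : mean X.Km ≤ mean (mγ X) := by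
  have key : 0 ≤ mean (fun x => mean (fun y => kγ X x (y - x) + (-1) * X.K x y)) := by
    refine mean_nonneg (B := 2) (C := 1) (fun x y => ?_) ?_
    · have h1 := abs_le.1 (abs_K X x y)
      have h2 := abs_le.1 (abs_kγ X x (y - x))
      rw [abs_le]
      constructor <;> linarith [h1.1, h1.2, h2.1, h2.2]
    · intro n u _ hu
      have hn : (0 : ℝ) < (n : ℝ) + 1 := by positivity
      have h2 := X.E_mono hX (ι := Fin (u n + u n))
        (Ψ := fun U => 2 * (Zf n (fun i => qp 0 Bot (u i)) U
          * Zf n (fun i => qp (u n) Bot (u i)) U))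
        (Ψ' := fun U => Zf n (fun i => qp 0 Bot (u i)) U * Zf n (fun i => qp 0 Bot (u i)) U
          + Zf n (fun i => qp (u n) Bot (u i)) U * Zf n (fun i => qp (u n) Bot (u i)) U) ?_
      · have e : ∀ c, c + u n ≤ u n + u n → ∑ j ∈ range (n + 1), ∑ i ∈ range j,
            X.E (Fin (u n + u n)) (fun U => f U (qp c Bot (u i)) * f U (qp c Bot (u j)))
            = ∑ j ∈ range (n + 1), ∑ i ∈ range j, kγ X (u i) (u j - u i) := by
          intro c hc
          refine sum_congr rfl fun j hj => sum_congr rfl fun i hi => ?_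
          have hi' := mem_range.1 hi
          have hj' := mem_range.1 hj
          have h3 := hu i j hi' (by omega)
          have h4 := rmono hu (i := j) (j := n) (by omega) le_rfl
          exact nestL X h3.le (by omega)
        have e' : ∑ i ∈ range (n + 1), ∑ j ∈ range (n + 1),
            X.E (Fin (u n + u n)) (fun U => f U (qp 0 Bot (u i)) * f U (qp (u n) Bot (u j)))
            = ∑ i ∈ range (n + 1), ∑ j ∈ range (n + 1), X.K (u i) (u j) := by
          refine sum_congr rfl fun i hi => sum_congr rfl fun j hj => ?_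
          have hi' := mem_range.1 hi
          have hj' := mem_range.1 hj
          have h3 := rmono hu (i := i) (j := n) (by omega) le_rfl
          have h4 := rmono hu (i := j) (j := n) (by omega) le_rfl
          exact X.disj (by omega) (by omega)
        rw [X.E_smul, X.E_add, X.E_ZW, X.E_ZZ, X.E_ZZ, e 0 (by omega), e (u n) le_rfl, e'] at h2
        rw [sqsum (fun i j => X.K (u i) (u j))] at h2
        have e3 : ∀ j ∈ range (n + 1), ∑ i ∈ range j, (X.K (u i) (u j) + X.K (u j) (u i))
            = 2 * ∑ i ∈ range j, X.K (u i) (u j) := by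
          intro j _
          rw [mul_sum]
          refine sum_congr rfl fun i _ => ?_
          rw [K_comm X (u j) (u i)]
          ring
        rw [sum_congr rfl e3, ← mul_sum] at h2
        have h4 : ∑ j ∈ range (n + 1), ∑ i ∈ range j,
            (kγ X (u i) (u j - u i) + (-1) * X.K (u i) (u j))
            = ∑ j ∈ range (n + 1), ∑ i ∈ range j, kγ X (u i) (u j - u i)
              - ∑ j ∈ range (n + 1), ∑ i ∈ range j, X.K (u i) (u j) := by
          rw [← sum_sub_distrib]
          refine sum_congr rfl fun j _ => ?_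
          rw [← sum_sub_distrib]
          refine sum_congr rfl fun i _ => ?_
          ring
        have h5 : 0 ≤ ∑ i ∈ range (n + 1), X.K (u i) (u i) :=
          sum_nonneg fun i _ => K_nonneg X hX _ _
        rw [h4]
        generalize ∑ j ∈ range (n + 1), ∑ i ∈ range j, kγ X (u i) (u j - u i) = A at *
        generalize ∑ j ∈ range (n + 1), ∑ i ∈ range j, X.K (u i) (u j) = B at *
        generalize ∑ i ∈ range (n + 1), X.K (u i) (u i) = Z at *
        have hD := X.D_le hX
        have h6 : 2 * (Z + 2 * B) / ((n : ℝ) + 1) ^ 2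
            ≤ 2 * (((n : ℝ) + 1) * X.D + 2 * A) / ((n : ℝ) + 1) ^ 2 := by
          have a1 : 2 * (Z + 2 * B) / ((n : ℝ) + 1) ^ 2
              = 2 * (1 / ((n : ℝ) + 1) * (1 / ((n : ℝ) + 1) * (Z + 2 * B))) := by
            field_simp
          have a2 : 2 * (((n : ℝ) + 1) * X.D + 2 * A) / ((n : ℝ) + 1) ^ 2
              = (((n : ℝ) + 1) * X.D + 2 * A) / ((n : ℝ) + 1) ^ 2
                + (((n : ℝ) + 1) * X.D + 2 * A) / ((n : ℝ) + 1) ^ 2 := by ring
          rw [a1, a2]
          exact h2
        have h7 := (div_le_div_iff_of_pos_right (by positivity)).1 h6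
        nlinarith
      · intro U hU
        have := sq_nonneg (Zf n (fun i => qp 0 Bot (u i)) U
          - Zf n (fun i => qp (u n) Bot (u i)) U)
        nlinarith
  have bb : ∀ x, Bdd (fun y => kγ X x (y - x)) := fun x => ⟨1, fun y => abs_kγ X _ _⟩
  have e : (fun x => mean (fun y => kγ X x (y - x) + (-1) * X.K x y))
      = fun x => mγ X x + (-1) * X.Km x := by
    funext x
    rw [mean_add (bb x) ((X.K_bdd x).smul (-1)), mean_smul _ (X.K_bdd x),
      mean_sub_shift (kγ_bdd X x)]
    rfl
  rw [e, mean_add (mγ_bdd X) (X.Km_bdd.smul (-1)), mean_smul _ X.Km_bdd] at key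
  linarith

/-- everything except the square of the first `x` indices -/
def cq (x : ℕ) : ℕ → ℕ → Prop := fun i j => x ≤ i ∨ x ≤ j

lemma nestC {M x x' : ℕ} (hx : x ≤ x') (hM : x' ≤ M) :
    X.E (Fin M) (fun U => f U (cq x) * f U (cq x')) = kc X x (x' - x) := by
  refine X.pair (a := 0) (b := x) (c := x) (u := x' - x) (by omega) (by omega)
    (Or.inl (by omega)) (cq x) (cq x') (NL x) Bot ?_ ?_ ?_
  · intro i j hi hj
    unfold cq sh NL
    split_ifs <;> omega
  · intro i j hi hj
    simp only [TH635.BV.Bot, iff_false]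
    unfold cq sh
    split_ifs <;> omega
  · intro i j hi hj h
    unfold cq
    omega

/-- the analogue of `item1` for complements of nested squares -/
theorem item1c (hX : X.Bad) (c : ℝ) : 2 * c * X.D ≤ mean (mc X) + c ^ 2 * (1 - X.D) := by
  set L : ℝ := 2 * c * X.D - c ^ 2 * (1 - X.D) with hL
  have key : 0 ≤ mean (fun x => mean (fun y => kc X x (y - x) + (-L))) := by
    refine mean_nonneg (B := 1 + |L|) (C := |L| + 1) (fun x y => ?_) ?_
    · refine (abs_add_le _ _).trans ?_
      rw [abs_neg]
      exact add_le_add_left (abs_kc X _ _) _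
    · intro n u hu1 hu
      have hn : (0 : ℝ) < (n : ℝ) + 1 := by positivity
      have h2 := X.E_mono hX (ι := Fin (u n))
        (Ψ := fun U => (2 * c) * Zf n (fun i => cq (u i)) U)
        (Ψ' := fun U => Zf n (fun i => cq (u i)) U * Zf n (fun i => cq (u i)) U
          + c ^ 2 * (1 + (-1) * f U Top)) ?_
      · have e : ∑ j ∈ range (n + 1), ∑ i ∈ range j,
            X.E (Fin (u n)) (fun U => f U (cq (u i)) * f U (cq (u j)))
            = ∑ j ∈ range (n + 1), ∑ i ∈ range j, kc X (u i) (u j - u i) := by
          refine sum_congr rfl fun j hj => sum_congr rfl fun i hi => ?_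
          have hi' := mem_range.1 hi
          have hj' := mem_range.1 hj
          have h3 := hu i j hi' (by omega)
          have h4 := rmono hu (i := j) (j := n) (by omega) le_rfl
          exact nestC X h3.le (by omega)
        rw [X.E_smul, X.E_add, X.E_smul, X.E_add, X.E_smul, X.E_const, X.E_Z, X.E_f,
          X.E_ZZ, e] at h2
        have h4 : ∑ j ∈ range (n + 1), ∑ i ∈ range j, (kc X (u i) (u j - u i) + -L)
            = ∑ j ∈ range (n + 1), ∑ i ∈ range j, kc X (u i) (u j - u i)
              - (n : ℝ) * (n + 1) / 2 * L := by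
          have h7 := Finset.sum_range_id_mul_two (n + 1)
          have h9 : (∑ i ∈ range (n + 1), i) * 2 = (n + 1) * n := by
            rw [h7, Nat.add_sub_cancel]
          have h8 : ((∑ i ∈ range (n + 1), i : ℕ) : ℝ) * 2 = ((n + 1 : ℕ) : ℝ) * ((n : ℕ) : ℝ) := by
            exact_mod_cast h9
          push_cast at h8
          simp only [sum_add_distrib, sum_const, card_range, nsmul_eq_mul]
          rw [← sum_mul]
          have h10 : (∑ i ∈ range (n + 1), (i : ℝ)) = (n : ℝ) * (n + 1) / 2 := by linarith
          rw [h10]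
          ring
        rw [h4]
        generalize ∑ j ∈ range (n + 1), ∑ i ∈ range j, kc X (u i) (u j - u i) = A at *
        have hD := X.D_le hX
        have hD0 := X.D_nonneg hX
        have h5 : L ≤ (((n : ℝ) + 1) * X.D + 2 * A) / ((n : ℝ) + 1) ^ 2 := by
          rw [hL]
          linarith
        rw [le_div_iff₀ (by positivity)] at h5
        have h6 := neg_abs_le L
        have h7 : 0 ≤ ((n : ℝ) + 1) * (L - X.D + |L| + 1) := mul_nonneg hn.le (by linarith)
        have h8 : 0 ≤ ((n : ℝ) + 1) * (|L| + 1) := by positivity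
        have h9 : L * ((n : ℝ) + 1) ^ 2 = (n : ℝ) * (n + 1) * L + ((n : ℝ) + 1) * L := by ring
        rw [h9] at h5
        linarith
      · intro U hU
        have h3 : Zf n (fun i => cq (u i)) U * f U Top = 0 := by
          have h4 : ∀ i ≤ n, f U (cq (u i)) * f U Top = 0 := by
            intro i hi
            have h0 := hu1 i hi
            have h4 := rmono hu hi le_rfl
            refine f_excl hU 0 (u i) (by omega) (by omega) ?_ ?_
            · intro x y _ _ _ _
              unfold cq
              omega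
            · intro x y _ _
              unfold cq TH635.BV.Top
              simp only [true_iff]
              omega
          unfold Zf
          rw [mul_assoc, sum_mul, sum_eq_zero, mul_zero]
          intro i hi
          exact h4 i (by have := mem_range.1 hi; omega)
        have h4 := f_sq U Top
        have e : Zf n (fun i => cq (u i)) U * Zf n (fun i => cq (u i)) U
            + c ^ 2 * (1 + (-1) * f U Top) - (2 * c) * Zf n (fun i => cq (u i)) U
            = (Zf n (fun i => cq (u i)) U - c * (1 - f U Top)) ^ 2 := by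
          linear_combination (-2 * c) * h3 + (-c ^ 2) * h4
        have := sq_nonneg (Zf n (fun i => cq (u i)) U - c * (1 - f U Top))
        linarith
  have bb : ∀ x, Bdd (fun y => kc X x (y - x)) := fun x => ⟨1, fun y => abs_kc X _ _⟩
  have e : (fun x => mean (fun y => kc X x (y - x) + (-L))) = fun x => mc X x + (-L) := by
    funext x
    rw [mean_add (bb x) (bdd_const _), mean_const, mean_sub_shift (kc_bdd X x)]
    rfl
  rw [e, mean_add (mc_bdd X) (bdd_const _), mean_const] at key
  linarith

/-- the squared difference for the other signs -/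
noncomputable def δ' (X : Fam) (b u : ℕ) : ℝ :=
  X.E (Fin (b + u)) (fun U => (f U (RR b) + f U Top - f U (DD b) - f U (NL b)) ^ 2)

lemma δ'_abs (b u : ℕ) : |δ' X b u| ≤ 4 := by
  refine X.E_abs (by norm_num) fun U => ?_
  rcases f01 U (RR b) with h | h <;> rcases f01 U (DD b) with h' | h' <;>
    rcases f01 U (NL b) with h'' | h'' <;> rcases f01 U Top with h3 | h3 <;>
    rw [h, h', h'', h3] <;> norm_num

lemma δ'_bdd (b : ℕ) : Bdd (δ' X b) := ⟨4, fun _ => δ'_abs X _ _⟩

lemma w5' {M b u x : ℕ} (hu : u ≤ x) (hM : b + x ≤ M) :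
    X.E (Fin M) (fun U => (f U (tq b u) + f U (wq b x) - f U (wq b u) - f U (tq b x)) ^ 2)
      = δ' X b (x - u) := by
  refine X.quad (a := 0) (b := b) (c := b + u) (u := x - u) (by omega) (by omega)
    (Or.inl (by omega)) _ _ _ _ (RR b) Top (DD b) (NL b) ?_ ?_ ?_ ?_ ?_
  · intro i j hi hj
    unfold tq sh RR
    split_ifs <;> omega
  · intro i j hi hj
    simp only [TH635.BV.Top, iff_true]
    unfold wq sh
    split_ifs <;> omega
  · intro i j hi hj
    unfold wq sh DD
    split_ifs <;> omega
  · intro i j hi hj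
    unfold tq sh NL
    split_ifs <;> omega
  · intro i j hi hj h
    unfold tq wq
    refine ⟨?_, ?_, ?_⟩ <;> omega

theorem δ'_le (hX : X.Bad) (b : ℕ) (hb : 1 ≤ b) : mean (δ' X b) ≤ 4 * X.D := by
  refine mean_of_chain (δ'_bdd X b) fun m t ht => ?_
  have htle : ∀ i ∈ range (m + 1), t i ≤ t m := fun i hi =>
    rmono ht (by have := mem_range.1 hi; omega) le_rfl
  have h2 := X.E_mono hX (ι := Fin (b + t m))
    (Ψ := fun U => ∑ j ∈ range (m + 1), ∑ i ∈ range j,
      (f U (tq b (t i)) + f U (wq b (t j)) - f U (wq b (t i)) - f U (tq b (t j))) ^ 2)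
    (Ψ' := fun U => ((m : ℝ) + 1) * ∑ j ∈ range (m + 1), (f U (tq b (t j)) + f U (wq b (t j)))) ?_
  · have eL : X.E (Fin (b + t m)) (fun U => ∑ j ∈ range (m + 1), ∑ i ∈ range j,
        (f U (tq b (t i)) + f U (wq b (t j)) - f U (wq b (t i)) - f U (tq b (t j))) ^ 2)
        = ∑ j ∈ range (m + 1), ∑ i ∈ range j, δ' X b (t j - t i) := by
      rw [X.E_sum]
      refine sum_congr rfl fun j hj => ?_
      rw [X.E_sum]
      refine sum_congr rfl fun i hi => ?_
      have h5 := htle j hj
      have h6 := ht i j (mem_range.1 hi) (by have := mem_range.1 hj; omega)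
      exact w5' X (by omega) (by omega)
    rw [eL, X.E_smul, X.E_sum] at h2
    simp only [X.E_add, X.E_f, sum_const, card_range, nsmul_eq_mul] at h2
    push_cast at h2
    refine h2.trans (le_of_eq ?_)
    ring
  · intro U hU
    have h3 : ∀ j, f U (tq b (t j)) * f U (wq b (t j)) = 0 := by
      intro j
      refine f_excl hU 0 b (by omega) (by omega) ?_ ?_
      · intro i j _ _ _ _
        unfold tq
        omega
      · intro i j _ _
        unfold tq wq
        omega
    have h4 := pairsq_le (fun j => f U (tq b (t j)) - f U (wq b (t j))) 0 (m + 1)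
    refine le_trans (le_of_eq ?_) (h4.trans (le_of_eq ?_))
    · refine sum_congr rfl fun j _ => sum_congr rfl fun i _ => ?_
      ring
    · push_cast
      congr 1
      refine sum_congr rfl fun j _ => ?_
      have s1 := f_sq U (tq b (t j))
      have s2 := f_sq U (wq b (t j))
      have s3 := h3 j
      linear_combination s1 + s2 - 2 * s3

end Pool.Agent.U60.PT
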