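import Mathlib

set_option autoImplicit false

/-!
# The inequality for twelve patterns
-/

namespace Pool.Agent.U60.PT

def ex (b a p q U w b' a' p' q' U' w' : ℤ) : ℤ :=
  3 - 2 * (a + b + a' + b') - (q + q') + (U + U') + 2 * w'
    - 3 * (q' * w') - q * w - q' * U' - q * U - 3 * (p' * w') - p * w - 2 * (p' * U')
    - 2 * (p * U) - 2 * (a' * w') - a' * U' + a * U + 2 * (a' * p') + w * b' + q * a' + a * b'
    - b' * U' - b * U + b' * q' + a * q' + b * w' + b * a' + b * q

def n (x : Bool) : ℤ := if x then 1 else 0

theorem exD : ∀ b a p q U w b' a' p' q' U' w' : Bool,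
    (b && a || b && p || a && q || p && q || U && w || b && w
      || b' && a' || b' && p' || a' && q' || p' && q' || U' && w' || b' && w'
      || b && b' || a && a' || p && p' || q && q' || U && U' || w && w') = false →
    0 ≤ ex (n b) (n a) (n p) (n q) (n U) (n w) (n b') (n a') (n p') (n q') (n U') (n w') := by
  decide +kernel

end Pool.Agent.U60.PT
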