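import Mathlib
import Pool.Agent.U60.PT.Chains
import Pool.Agent.U60.PT.Pt

set_option autoImplicit false
set_option linter.unusedSimpArgs false

/-!
# The averaged inequality for twelve patterns of three blocks
-/

namespace Pool.Agent.U60.PT

open Finset Filter Topology Pool.Agent.TH7.DH Pool.Agent.TH635.BV

variable (X : Fam)

/-- patterns on three blocks `[0, β)`, `[β, β + a)` and the rest: the squares of the blocks that are
switched on, and the cross cells of the last two blocks -/
def cf (t s₁ s₂ s₃ : Bool) (β a : ℕ) : ℕ → ℕ → Prop := fun i j =>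
  (t = true ∧ i < β ∧ j < β) ∨ (s₁ = true ∧ β ≤ i ∧ i < β + a ∧ β ≤ j ∧ j < β + a) ∨
    (s₂ = true ∧ β + a ≤ i ∧ β + a ≤ j) ∨
    (s₃ = true ∧ ((β ≤ i ∧ i < β + a ∧ β + a ≤ j) ∨ (β ≤ j ∧ j < β + a ∧ β + a ≤ i)))

/-- patterns on two blocks -/
def c2 (s₁ s₂ s₃ : Bool) (a : ℕ) : ℕ → ℕ → Prop := fun i j =>
  (s₁ = true ∧ i < a ∧ j < a) ∨ (s₂ = true ∧ a ≤ i ∧ a ≤ j) ∨
    (s₃ = true ∧ ((i < a ∧ a ≤ j) ∨ (j < a ∧ a ≤ i)))

lemma c2_Bot (a : ℕ) : c2 false false false a = TH635.BV.Bot := by
  funext i j
  simp [c2, TH635.BV.Bot]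

lemma c2_LL (a : ℕ) : c2 true false false a = LL a := by
  funext i j
  simp [c2, LL]

lemma c2_RR (a : ℕ) : c2 false true false a = RR a := by
  funext i j
  simp [c2, RR]

lemma c2_DD (a : ℕ) : c2 true true false a = DD a := by
  funext i j
  simp [c2, DD]

lemma c2_NL (a : ℕ) : c2 false true true a = NL a := by
  funext i j
  simp only [c2, NL, Bool.false_eq_true, eq_self, false_and, true_and, false_or]
  refine propext ?_
  omega

lemma c2_Top (a : ℕ) : c2 true true true a = TH635.BV.Top := by
  funext i j
  simp only [c2, TH635.BV.Top, eq_self, true_and, iff_true, eq_iff_iff]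
  omega

lemma cf_sh (t s₁ s₂ s₃ : Bool) (β a i j : ℕ) :
    cf t s₁ s₂ s₃ β a (sh β a (β + a) i) (sh β a (β + a) j) ↔ c2 s₁ s₂ s₃ a i j := by
  unfold cf c2 sh
  cases t <;> cases s₁ <;> cases s₂ <;> cases s₃ <;>
    simp only [Bool.false_eq_true, eq_self, false_and, true_and, false_or, or_false, iff_false, false_iff] <;> split_ifs <;>
    omega

lemma red (t s₁ s₂ s₃ r₁ r₂ r₃ : Bool) (β a y : ℕ) :
    X.E (Fin (β + a + y)) (fun U => f U (cf t s₁ s₂ s₃ β a) * f U (cf t r₁ r₂ r₃ β a))
      = X.E (Fin (a + y)) (fun U => f U (c2 s₁ s₂ s₃ a) * f U (c2 r₁ r₂ r₃ a)) := by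
  refine X.pair (a := β) (b := a) (c := β + a) (u := y) (by omega) (by omega) (Or.inl le_rfl)
    _ _ (c2 s₁ s₂ s₃ a) (c2 r₁ r₂ r₃ a) ?_ ?_ ?_
  · intro i j _ _
    exact cf_sh _ _ _ _ _ _ _ _
  · intro i j _ _
    exact cf_sh _ _ _ _ _ _ _ _
  · intro i j hi hj h
    unfold cf
    cases t <;> cases s₁ <;> cases s₂ <;> cases s₃ <;> cases r₁ <;> cases r₂ <;> cases r₃ <;>
      simp only [Bool.false_eq_true, eq_self, false_and, true_and, false_or, or_false, iff_false, false_iff, not_false_iff, implies_true, not_and] <;> omega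

/-- `Y²` and `A²` against the cross cells -/
noncomputable def k2 (X : Fam) (a y : ℕ) : ℝ :=
  X.E (Fin (a + y)) (fun U => f U (DD a) * f U (NL a))
noncomputable def k3 (X : Fam) (a y : ℕ) : ℝ :=
  X.E (Fin (a + y)) (fun U => f U (RR a) * f U (NL a))
noncomputable def k4 (X : Fam) (a y : ℕ) : ℝ :=
  X.E (Fin (a + y)) (fun U => f U (LL a) * f U (NL a))

section kernels

variable (t : Bool) (β a y : ℕ)

lemma e_qw : X.E (Fin (β + a + y)) (fun U => f U (cf t true true false β a)
    * f U (cf t true true true β a)) = X.k' a y := by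
  rw [red, c2_DD, c2_Top]; rfl
lemma e_qU : X.E (Fin (β + a + y)) (fun U => f U (cf t true true false β a)
    * f U (cf t false true true β a)) = k2 X a y := by
  rw [red, c2_DD, c2_NL]; rfl
lemma e_pw : X.E (Fin (β + a + y)) (fun U => f U (cf t false true false β a)
    * f U (cf t true true true β a)) = X.k a y := by
  rw [red, c2_RR, c2_Top]; rfl
lemma e_pU : X.E (Fin (β + a + y)) (fun U => f U (cf t false true false β a)
    * f U (cf t false true true β a)) = k3 X a y := by
  rw [red, c2_RR, c2_NL]; rfl
lemma e_aw : X.E (Fin (β + a + y)) (fun U => f U (cf t true false false β a)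
    * f U (cf t true true true β a)) = kγ X a y := by
  rw [red, c2_LL, c2_Top]; rfl
lemma e_aU : X.E (Fin (β + a + y)) (fun U => f U (cf t true false false β a)
    * f U (cf t false true true β a)) = k4 X a y := by
  rw [red, c2_LL, c2_NL]; rfl
lemma e_ap : X.E (Fin (β + a + y)) (fun U => f U (cf t true false false β a)
    * f U (cf t false true false β a)) = X.K a y := by
  rw [red, c2_LL, c2_RR]; rfl
lemma e_bq : X.E (Fin (β + a + y)) (fun U => f U (cf t true true false β a)
    * f U (cf t false false false β a)) = X.g a y := by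
  rw [red, c2_DD, c2_Bot]; rfl
lemma e_bU : X.E (Fin (β + a + y)) (fun U => f U (cf t false true true β a)
    * f U (cf t false false false β a)) = kc X a y := by
  rw [red, c2_NL, c2_Bot]; rfl

/-- `β²` and `(A ∪ Y)²` -/
lemma e_b1w : X.E (Fin (β + a + y)) (fun U => f U (cf true false false false β a)
    * f U (cf false true true true β a)) = X.K β (a + y) := by
  refine X.pair (a := 0) (b := β) (c := β) (u := a + y) (by omega) (by omega)
    (Or.inl (by omega)) _ _ (LL β) (RR β) ?_ ?_ ?_
  · intro i j hi hj
    simp only [cf, LL, Bool.false_eq_true, eq_self, false_and, true_and, or_false]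
    unfold sh
    split_ifs <;> omega
  · intro i j hi hj
    simp only [cf, RR, Bool.false_eq_true, eq_self, false_and, true_and, false_or]
    unfold sh
    split_ifs <;> omega
  · intro i j hi hj h
    simp only [cf, Bool.false_eq_true, eq_self, false_and, true_and, false_or, or_false, iff_false, false_iff]
    omega

/-- `β²` and `Y²` -/
lemma e_a1q : X.E (Fin (β + a + y)) (fun U => f U (cf true true false false β a)
    * f U (cf false true true false β a)) = X.K β y := by
  refine X.pair (a := 0) (b := β) (c := β + a) (u := y) (by omega) (by omega)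
    (Or.inl (by omega)) _ _ (LL β) (RR β) ?_ ?_ ?_
  · intro i j hi hj
    simp only [cf, LL, Bool.false_eq_true, eq_self, false_and, true_and, or_false]
    unfold sh
    split_ifs <;> omega
  · intro i j hi hj
    simp only [cf, RR, Bool.false_eq_true, eq_self, false_and, true_and, false_or, or_false]
    unfold sh
    split_ifs <;> omega
  · intro i j hi hj h
    simp only [cf, Bool.false_eq_true, eq_self, false_and, true_and, false_or, or_false, iff_false, false_iff]
    omega

/-- `β²` and `A²` -/
lemma e_b1a : X.E (Fin (β + a + y)) (fun U => f U (cf true false false false β a)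
    * f U (cf false true false false β a)) = X.K β a := by
  refine X.pair (a := 0) (b := β) (c := β) (u := a) (by omega) (by omega)
    (Or.inl (by omega)) _ _ (LL β) (RR β) ?_ ?_ ?_
  · intro i j hi hj
    simp only [cf, LL, Bool.false_eq_true, eq_self, false_and, true_and, or_false]
    unfold sh
    split_ifs <;> omega
  · intro i j hi hj
    simp only [cf, RR, Bool.false_eq_true, eq_self, false_and, true_and, false_or, or_false]
    unfold sh
    split_ifs <;> omega
  · intro i j hi hj h
    simp only [cf, Bool.false_eq_true, eq_self, false_and, true_and, false_or, or_false, iff_false, false_iff]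
    omega

/-- the empty set and `β² ∪ Y²` -/
lemma e_q1a : X.E (Fin (β + a + y)) (fun U => f U (cf true true true false β a)
    * f U (cf false true false false β a)) = X.g β y := by
  refine X.pair (a := 0) (b := β) (c := β + a) (u := y) (by omega) (by omega)
    (Or.inl (by omega)) _ _ (DD β) TH635.BV.Bot ?_ ?_ ?_
  · intro i j hi hj
    simp only [cf, DD, Bool.false_eq_true, eq_self, false_and, true_and, or_false]
    unfold sh
    split_ifs <;> omega
  · intro i j hi hj
    simp only [cf, TH635.BV.Bot, Bool.false_eq_true, eq_self, false_and, true_and, false_or, or_false,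
      iff_false]
    unfold sh
    split_ifs <;> omega
  · intro i j hi hj h
    simp only [cf, Bool.false_eq_true, eq_self, false_and, true_and, false_or, or_false, iff_false, false_iff]
    omega

/-- the empty set and `β² ∪ (A ∪ Y)²` -/
lemma e_w1b : X.E (Fin (β + a + y)) (fun U => f U (cf true true true true β a)
    * f U (cf false false false false β a)) = X.g β (a + y) := by
  refine X.pair (a := 0) (b := β) (c := β) (u := a + y) (by omega) (by omega)
    (Or.inl (by omega)) _ _ (DD β) TH635.BV.Bot ?_ ?_ ?_
  · intro i j hi hj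
    simp only [cf, DD, eq_self, true_and]
    unfold sh
    split_ifs <;> omega
  · intro i j hi hj
    simp only [cf, TH635.BV.Bot, Bool.false_eq_true, eq_self, false_and, false_or]
  · intro i j hi hj h
    simp only [cf, Bool.false_eq_true, eq_self, false_and, true_and, false_or, or_false, iff_false, false_iff]
    omega

/-- the empty set and `β² ∪ A²` -/
lemma e_a1b : X.E (Fin (β + a + y)) (fun U => f U (cf true true false false β a)
    * f U (cf false false false false β a)) = X.g β a := by
  refine X.pair (a := 0) (b := β) (c := β) (u := a) (by omega) (by omega)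
    (Or.inl (by omega)) _ _ (DD β) TH635.BV.Bot ?_ ?_ ?_
  · intro i j hi hj
    simp only [cf, DD, Bool.false_eq_true, eq_self, false_and, true_and, or_false]
    unfold sh
    split_ifs <;> omega
  · intro i j hi hj
    simp only [cf, TH635.BV.Bot, Bool.false_eq_true, eq_self, false_and, false_or]
  · intro i j hi hj h
    simp only [cf, Bool.false_eq_true, eq_self, false_and, true_and, false_or, or_false, iff_false, false_iff]
    omega

end kernels

lemma fB {M : ℕ} (U : ((Fin 2 → Fin M) → Prop) → Prop) (p : ℕ → ℕ → Prop) :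
    ∃ x : Bool, f U p = ((n x : ℤ) : ℝ) := by
  rcases f01 U p with h | h
  · exact ⟨false, by rw [h]; simp [n]⟩
  · exact ⟨true, by rw [h]; simp [n]⟩

lemma nB {x y : Bool} (h : ((n x : ℤ) : ℝ) * ((n y : ℤ) : ℝ) = 0) : (x && y) = false := by
  cases x <;> cases y <;> simp [n] at h ⊢

/-- filling the square of `β` -/
lemma xβ {β a y : ℕ} (hβ : 1 ≤ β) (s₁ s₂ s₃ : Bool)
    {U : ((Fin 2 → Fin (β + a + y)) → Prop) → Prop} (hU : Adm U) :
    f U (cf false s₁ s₂ s₃ β a) * f U (cf true s₁ s₂ s₃ β a) = 0 := by
  refine f_excl hU 0 β (by omega) (by omega) ?_ ?_ <;> intro i j <;>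
    cases s₁ <;> cases s₂ <;> cases s₃ <;>
    simp only [cf, Bool.false_eq_true, eq_self, false_and, true_and, false_or, or_false, iff_false, false_iff, not_false_iff, implies_true, not_and] <;> omega

/-- filling the square of `A` -/
lemma xa {β a y : ℕ} (ha : 1 ≤ a) (t s₂ s₃ : Bool)
    {U : ((Fin 2 → Fin (β + a + y)) → Prop) → Prop} (hU : Adm U) :
    f U (cf t false s₂ s₃ β a) * f U (cf t true s₂ s₃ β a) = 0 := by
  refine f_excl hU β (β + a) (by omega) (by omega) ?_ ?_ <;> intro i j <;>
    cases t <;> cases s₂ <;> cases s₃ <;>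
    simp only [cf, Bool.false_eq_true, eq_self, false_and, true_and, false_or, or_false, iff_false, false_iff, not_false_iff, implies_true, not_and] <;> omega

/-- filling the square of `Y` -/
lemma xy {β a y : ℕ} (hy : 1 ≤ y) (t s₁ s₃ : Bool)
    {U : ((Fin 2 → Fin (β + a + y)) → Prop) → Prop} (hU : Adm U) :
    f U (cf t s₁ false s₃ β a) * f U (cf t s₁ true s₃ β a) = 0 := by
  refine f_excl hU (β + a) (β + a + y) (by omega) (by omega) ?_ ?_ <;> intro i j <;>
    cases t <;> cases s₁ <;> cases s₃ <;>
    simp only [cf, Bool.false_eq_true, eq_self, false_and, true_and, false_or, or_false, iff_false, false_iff, not_false_iff, implies_true, not_and] <;> omega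

/-- filling the square of `A ∪ Y` -/
lemma xw {β a y : ℕ} (ha : 1 ≤ a) (t : Bool)
    {U : ((Fin 2 → Fin (β + a + y)) → Prop) → Prop} (hU : Adm U) :
    f U (cf t false false false β a) * f U (cf t true true true β a) = 0 := by
  refine f_excl hU β (β + a + y) (by omega) (by omega) ?_ ?_ <;> intro i j <;>
    cases t <;>
    simp only [cf, Bool.false_eq_true, eq_self, false_and, true_and, false_or, or_false, iff_false, false_iff, not_false_iff, implies_true, not_and] <;> omega

theorem P_nonneg (hX : X.Bad) (β a y : ℕ) (hβ : 1 ≤ β) (ha : 1 ≤ a) (hy : 1 ≤ y) :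
    0 ≤ 3 - 6 * X.D + 2 * X.K a y + X.K β (a + y) + X.K β y + X.K β a + 2 * X.g a y + X.g β y
      + X.g β (a + y) + X.g β a - 2 * kγ X a y - 4 * X.k' a y - 2 * k2 X a y - 4 * X.k a y
      - 4 * k3 X a y - 2 * kc X a y := by
  set b0 := cf false false false false β a with hb0
  set a0 := cf false true false false β a with ha0
  set p0 := cf false false true false β a with hp0
  set q0 := cf false true true false β a with hq0
  set U0 := cf false false true true β a with hU0
  set w0 := cf false true true true β a with hw0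
  set b1 := cf true false false false β a with hb1
  set a1 := cf true true false false β a with ha1
  set p1 := cf true false true false β a with hp1
  set q1 := cf true true true false β a with hq1
  set U1 := cf true false true true β a with hU1
  set w1 := cf true true true true β a with hw1
  have h2 := X.E_mono hX (ι := Fin (β + a + y)) (Ψ := fun _ => 0)
    (Ψ' := fun U => 3 + ((-2) * f U a0 + ((-2) * f U b0 + ((-2) * f U a1 + ((-2) * f U b1
      + ((-1) * f U q0 + ((-1) * f U q1 + (f U U0 + (f U U1 + (2 * f U w1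
      + ((-3) * (f U q1 * f U w1) + ((-1) * (f U q0 * f U w0) + ((-1) * (f U q1 * f U U1)
      + ((-1) * (f U q0 * f U U0) + ((-3) * (f U p1 * f U w1) + ((-1) * (f U p0 * f U w0)
      + ((-2) * (f U p1 * f U U1) + ((-2) * (f U p0 * f U U0) + ((-2) * (f U a1 * f U w1)
      + ((-1) * (f U a1 * f U U1) + (f U a0 * f U U0 + (2 * (f U a1 * f U p1)
      + (f U b1 * f U w0 + (f U a1 * f U q0 + (f U b1 * f U a0 + ((-1) * (f U U1 * f U b1)
      + ((-1) * (f U U0 * f U b0) + (f U q1 * f U b1 + (f U q1 * f U a0 + (f U w1 * f U b0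
      + (f U a1 * f U b0 + f U q0 * f U b0))))))))))))))))))))))))))))))) ?_
  · simp only [X.E_add, X.E_smul, X.E_const, X.E_f] at h2
    rw [e_qw X true, e_qw X false, e_qU X true, e_qU X false, e_pw X true, e_pw X false,
      e_pU X true, e_pU X false, e_aw X true, e_aU X true, e_aU X false, e_ap X true,
      e_b1w, e_a1q, e_b1a, e_bU X true, e_bU X false, e_bq X true, e_bq X false, e_q1a, e_w1b,
      e_a1b] at h2
    linarith
  · intro U hU
    obtain ⟨x1, h1⟩ := fB U b0
    obtain ⟨x2, h2⟩ := fB U a0
    obtain ⟨x3, h3⟩ := fB U p0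
    obtain ⟨x4, h4⟩ := fB U q0
    obtain ⟨x5, h5⟩ := fB U U0
    obtain ⟨x6, h6⟩ := fB U w0
    obtain ⟨z1, g1⟩ := fB U b1
    obtain ⟨z2, g2⟩ := fB U a1
    obtain ⟨z3, g3⟩ := fB U p1
    obtain ⟨z4, g4⟩ := fB U q1
    obtain ⟨z5, g5⟩ := fB U U1
    obtain ⟨z6, g6⟩ := fB U w1
    have t1 := xa (y := y) (β := β) ha false false false hU
    have t2 := xy (a := a) (β := β) hy false false false hU
    have t3 := xy (a := a) (β := β) hy false true false hU
    have t4 := xa (y := y) (β := β) ha false true false hU
    have t5 := xa (y := y) (β := β) ha false true true hU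
    have t6 := xw (y := y) (β := β) ha false hU
    have s1 := xa (y := y) (β := β) ha true false false hU
    have s2 := xy (a := a) (β := β) hy true false false hU
    have s3 := xy (a := a) (β := β) hy true true false hU
    have s4 := xa (y := y) (β := β) ha true true false hU
    have s5 := xa (y := y) (β := β) ha true true true hU
    have s6 := xw (y := y) (β := β) ha true hU
    have r1 := xβ (y := y) (a := a) hβ false false false hU
    have r2 := xβ (y := y) (a := a) hβ true false false hU
    have r3 := xβ (y := y) (a := a) hβ false true false hU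
    have r4 := xβ (y := y) (a := a) hβ true true false hU
    have r5 := xβ (y := y) (a := a) hβ false true true hU
    have r6 := xβ (y := y) (a := a) hβ true true true hU
    rw [← hb0, ← ha0, h1, h2] at t1
    rw [← hb0, ← hp0, h1, h3] at t2
    rw [← ha0, ← hq0, h2, h4] at t3
    rw [← hp0, ← hq0, h3, h4] at t4
    rw [← hU0, ← hw0, h5, h6] at t5
    rw [← hb0, ← hw0, h1, h6] at t6
    rw [← hb1, ← ha1, g1, g2] at s1
    rw [← hb1, ← hp1, g1, g3] at s2
    rw [← ha1, ← hq1, g2, g4] at s3
    rw [← hp1, ← hq1, g3, g4] at s4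
    rw [← hU1, ← hw1, g5, g6] at s5
    rw [← hb1, ← hw1, g1, g6] at s6
    rw [← hb0, ← hb1, h1, g1] at r1
    rw [← ha0, ← ha1, h2, g2] at r2
    rw [← hp0, ← hp1, h3, g3] at r3
    rw [← hq0, ← hq1, h4, g4] at r4
    rw [← hU0, ← hU1, h5, g5] at r5
    rw [← hw0, ← hw1, h6, g6] at r6
    have key := exD x1 x2 x3 x4 x5 x6 z1 z2 z3 z4 z5 z6 (by
      simp only [nB t1, nB t2, nB t3, nB t4, nB t5, nB t6, nB s1, nB s2, nB s3, nB s4, nB s5,
        nB s6, nB r1, nB r2, nB r3, nB r4, nB r5, nB r6, Bool.or_false])
    have key' : (0 : ℝ) ≤ ((ex (n x1) (n x2) (n x3) (n x4) (n x5) (n x6) (n z1) (n z2) (n z3)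
      (n z4) (n z5) (n z6) : ℤ) : ℝ) := by exact_mod_cast key
    unfold ex at key'
    push_cast at key'
    simp only [h1, h2, h3, h4, h5, h6, g1, g2, g3, g4, g5, g6]
    linarith

end Pool.Agent.U60.PT
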