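import Mathlib
import Pool.Agent.TH635.BV.Main2
import Pool.Agent.U60.PT.Red

set_option autoImplicit false

/-!
# The bound for the limit density
-/

namespace Pool.Agent.U60.PT

open Finset Filter Topology Pool.Agent.TH7.DH Pool.Agent.TH635.BV

variable (X : Fam)

lemma ex1 {a y : ℕ} (ha : 1 ≤ a) {U : ((Fin 2 → Fin (a + y)) → Prop) → Prop} (hU : Adm U) :
    f U (RR a) * f U (DD a) = 0 := by
  refine f_excl hU 0 a (by omega) (by omega) ?_ ?_ <;> intro i j <;> unfold RR <;>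
    (try unfold DD) <;> omega

lemma ex2 {a y : ℕ} (ha : 1 ≤ a) {U : ((Fin 2 → Fin (a + y)) → Prop) → Prop} (hU : Adm U) :
    f U (NL a) * f U TH635.BV.Top = 0 := by
  refine f_excl hU 0 a (by omega) (by omega) ?_ ?_
  · intro i j _ _ _ _
    unfold NL
    omega
  · intro i j _ _
    simp only [TH635.BV.Top, true_iff]
    unfold NL
    omega

lemma δ'_eq (hX : X.Bad) {a : ℕ} (ha : 1 ≤ a) (y : ℕ) :
    4 * X.D - 2 * k3 X a y + 2 * X.k a y + 2 * k2 X a y - 2 * X.k' a y ≤ δ' X a y := by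
  have h := X.E_mono hX (ι := Fin (a + y))
    (Ψ' := fun U => (f U (RR a) + f U TH635.BV.Top - f U (DD a) - f U (NL a)) ^ 2)
    (Ψ := fun U => f U (RR a) + (f U (DD a) + (f U (NL a) + (f U TH635.BV.Top
      + ((-2) * (f U (RR a) * f U (NL a)) + (2 * (f U (RR a) * f U TH635.BV.Top)
      + (2 * (f U (DD a) * f U (NL a)) + (-2) * (f U (DD a) * f U TH635.BV.Top)))))))) ?_
  · simp only [X.E_add, X.E_smul, X.E_f] at h
    unfold δ' k3 k2 Fam.k Fam.k'
    linarith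
  · intro U hU
    have s1 := f_sq U (RR a)
    have s2 := f_sq U (DD a)
    have s3 := f_sq U (NL a)
    have s4 := f_sq U TH635.BV.Top
    have e1 := ex1 ha hU
    have e2 := ex2 ha hU
    refine le_of_eq ?_
    linear_combination -s1 - s2 - s3 - s4 + 2 * e1 + 2 * e2

lemma δ_eq' (hX : X.Bad) {a : ℕ} (ha : 1 ≤ a) (y : ℕ) :
    4 * X.D - 2 * k3 X a y - 2 * X.k a y - 2 * k2 X a y - 2 * X.k' a y ≤ X.δ a y := by
  have h := X.E_mono hX (ι := Fin (a + y))
    (Ψ' := fun U => (f U (RR a) + f U (DD a) - f U (NL a) - f U TH635.BV.Top) ^ 2)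
    (Ψ := fun U => f U (RR a) + (f U (DD a) + (f U (NL a) + (f U TH635.BV.Top
      + ((-2) * (f U (RR a) * f U (NL a)) + ((-2) * (f U (RR a) * f U TH635.BV.Top)
      + ((-2) * (f U (DD a) * f U (NL a)) + (-2) * (f U (DD a) * f U TH635.BV.Top)))))))) ?_
  · simp only [X.E_add, X.E_smul, X.E_f] at h
    unfold Fam.δ k3 k2 Fam.k Fam.k'
    linarith
  · intro U hU
    have s1 := f_sq U (RR a)
    have s2 := f_sq U (DD a)
    have s3 := f_sq U (NL a)
    have s4 := f_sq U TH635.BV.Top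
    have e1 := ex1 ha hU
    have e2 := ex2 ha hU
    refine le_of_eq ?_
    linear_combination -s1 - s2 - s3 - s4 - 2 * e1 - 2 * e2

theorem P' (hX : X.Bad) (β a y : ℕ) (hβ : 1 ≤ β) (ha : 1 ≤ a) (hy : 1 ≤ y) :
    0 ≤ 3 - 14 * X.D + 2 * X.K a y + X.K β (a + y) + X.K β y + X.K β a + 2 * X.g a y + X.g β y
      + X.g β (a + y) + X.g β a - 2 * kγ X a y + 3 / 2 * X.δ a y + 1 / 2 * δ' X a y
      - 2 * X.k a y - 2 * kc X a y := by
  have h1 := P_nonneg X hX β a y hβ ha hy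
  have h2 := δ_eq' X hX ha y
  have h3 := δ'_eq X hX ha y
  linarith

theorem m1 (hX : X.Bad) (β a : ℕ) (hβ : 1 ≤ β) (ha : 1 ≤ a) :
    0 ≤ 3 - 6 * X.D + X.K β a + X.g β a + 2 * X.Km a + 2 * X.Km β + 2 * X.gm a + 2 * X.gm β
      - 2 * mγ X a - 14 * X.κ₁ a - 2 * mc X a := by
  have h1 : ∀ s, 0 ≤ (3 - 14 * X.D + X.K β a + X.g β a) + (2 * X.K a (s + 1)
      + (X.K β (s + (a + 1)) + (X.K β (s + 1) + (2 * X.g a (s + 1) + (X.g β (s + 1)
      + (X.g β (s + (a + 1)) + ((-2) * kγ X a (s + 1) + (3 / 2 * X.δ a (s + 1)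
      + (1 / 2 * δ' X a (s + 1) + ((-2) * X.k a (s + 1) + (-2) * kc X a (s + 1)))))))))))  := by
    intro s
    have h := P' X hX β a (s + 1) hβ ha (by omega)
    have e : a + (s + 1) = s + (a + 1) := by omega
    rw [e] at h
    linarith
  have b1 := (X.K_bdd a).shift 1
  have b2 := (X.K_bdd β).shift (a + 1)
  have b3 := (X.K_bdd β).shift 1
  have b4 := (X.g_bdd a).shift 1
  have b5 := (X.g_bdd β).shift 1
  have b6 := (X.g_bdd β).shift (a + 1)
  have b7 := (kγ_bdd X a).shift 1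
  have b8 := (X.δ_bdd a).shift 1
  have b9 := (δ'_bdd X a).shift 1
  have b10 := (X.k_bdd a).shift 1
  have b11 := (kc_bdd X a).shift 1
  have c10 := (b10.smul (-2)).add (b11.smul (-2))
  have c9 := (b9.smul (1 / 2)).add c10
  have c8 := (b8.smul (3 / 2)).add c9
  have c7 := (b7.smul (-2)).add c8
  have c6 := b6.add c7
  have c5 := b5.add c6
  have c4 := (b4.smul 2).add c5
  have c3 := b3.add c4
  have c2 := b2.add c3
  have c1 := (b1.smul 2).add c2
  have h2 := mean_mono (bdd_const 0) ((bdd_const _).add c1) h1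
  rw [mean_const, mean_add (bdd_const _) c1, mean_const, mean_add (b1.smul 2) c2, mean_add b2 c3,
    mean_add b3 c4, mean_add (b4.smul 2) c5, mean_add b5 c6, mean_add b6 c7,
    mean_add (b7.smul (-2)) c8, mean_add (b8.smul (3 / 2)) c9, mean_add (b9.smul (1 / 2)) c10,
    mean_add (b10.smul (-2)) (b11.smul (-2)), mean_smul _ b1, mean_smul _ b4, mean_smul _ b7,
    mean_smul _ b8, mean_smul _ b9, mean_smul _ b10, mean_smul _ b11,
    mean_shift 1 (X.K_bdd a), mean_shift (a + 1) (X.K_bdd β), mean_shift 1 (X.K_bdd β),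
    mean_shift 1 (X.g_bdd a), mean_shift 1 (X.g_bdd β), mean_shift (a + 1) (X.g_bdd β),
    mean_shift 1 (kγ_bdd X a), mean_shift 1 (X.δ_bdd a), mean_shift 1 (δ'_bdd X a),
    mean_shift 1 (X.k_bdd a), mean_shift 1 (kc_bdd X a)] at h2
  have e1 : mean (X.K β) = X.Km β := rfl
  have e2 : mean (X.g β) = X.gm β := rfl
  have e3 : mean (X.K a) = X.Km a := rfl
  have e4 : mean (X.g a) = X.gm a := rfl
  have e5 : mean (kγ X a) = mγ X a := rfl
  have e6 : mean (kc X a) = mc X a := rfl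
  have e7 : mean (X.k a) = X.κ₁ a := rfl
  rw [e1, e2, e3, e4, e5, e6, e7] at h2
  have h3 := X.δm_le hX a ha
  have h4 := δ'_le X hX a ha
  linarith

theorem m2 (hX : X.Bad) (β : ℕ) (hβ : 1 ≤ β) :
    0 ≤ 3 - 6 * X.D + 3 * X.Km β + 3 * X.gm β + 2 * mean X.Km + 2 * mean X.gm
      - 2 * mean (mγ X) - 14 * X.κ - 2 * mean (mc X) := by
  have h1 : ∀ s, 0 ≤ (3 - 6 * X.D + 2 * X.Km β + 2 * X.gm β) + (X.K β (s + 1)
      + (X.g β (s + 1) + (2 * X.Km (s + 1) + (2 * X.gm (s + 1) + ((-2) * mγ X (s + 1)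
      + ((-14) * X.κ₁ (s + 1) + (-2) * mc X (s + 1))))))) := by
    intro s
    have h := m1 X hX β (s + 1) hβ (by omega)
    linarith
  have b1 := (X.K_bdd β).shift 1
  have b2 := (X.g_bdd β).shift 1
  have b3 := X.Km_bdd.shift 1
  have b4 := X.gm_bdd.shift 1
  have b5 := (mγ_bdd X).shift 1
  have b6 := X.κ₁_bdd.shift 1
  have b7 := (mc_bdd X).shift 1
  have c6 := (b6.smul (-14)).add (b7.smul (-2))
  have c5 := (b5.smul (-2)).add c6
  have c4 := (b4.smul 2).add c5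
  have c3 := (b3.smul 2).add c4
  have c2 := b2.add c3
  have c1 := b1.add c2
  have h2 := mean_mono (bdd_const 0) ((bdd_const _).add c1) h1
  rw [mean_const, mean_add (bdd_const _) c1, mean_const, mean_add b1 c2, mean_add b2 c3,
    mean_add (b3.smul 2) c4, mean_add (b4.smul 2) c5, mean_add (b5.smul (-2)) c6,
    mean_add (b6.smul (-14)) (b7.smul (-2)), mean_smul _ b3, mean_smul _ b4, mean_smul _ b5,
    mean_smul _ b6, mean_smul _ b7, mean_shift 1 (X.K_bdd β), mean_shift 1 (X.g_bdd β),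
    mean_shift 1 X.Km_bdd, mean_shift 1 X.gm_bdd, mean_shift 1 (mγ_bdd X),
    mean_shift 1 X.κ₁_bdd, mean_shift 1 (mc_bdd X)] at h2
  have e1 : mean (X.K β) = X.Km β := rfl
  have e2 : mean (X.g β) = X.gm β := rfl
  have e3 : mean X.κ₁ = X.κ := rfl
  rw [e1, e2, e3] at h2
  linarith

theorem m3 (hX : X.Bad) :
    0 ≤ 3 - 6 * X.D + 5 * mean X.Km + 5 * mean X.gm
      - 2 * mean (mγ X) - 14 * X.κ - 2 * mean (mc X) := by
  have h1 : ∀ s, 0 ≤ (3 - 6 * X.D + 2 * mean X.Km + 2 * mean X.gm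
      - 2 * mean (mγ X) - 14 * X.κ - 2 * mean (mc X)) + (3 * X.Km (s + 1)
      + 3 * X.gm (s + 1)) := by
    intro s
    have h := m2 X hX (s + 1) (by omega)
    linarith
  have b3 := X.Km_bdd.shift 1
  have b4 := X.gm_bdd.shift 1
  have c1 := (b3.smul 3).add (b4.smul 3)
  have h2 := mean_mono (bdd_const 0) ((bdd_const _).add c1) h1
  rw [mean_const, mean_add (bdd_const _) c1, mean_const, mean_add (b3.smul 3) (b4.smul 3),
    mean_smul _ b3, mean_smul _ b4, mean_shift 1 X.Km_bdd, mean_shift 1 X.gm_bdd] at h2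
  linarith

/-- The limit density of families without a planted pair. -/
theorem bound (hX : X.Bad) : X.D ≤ (Real.sqrt 105 - 9) / 4 := by
  have h1 := m3 X hX
  have h2 := gm_le X hX
  have h3 := Km_le_mγ X hX
  have h4 := X.item2 hX
  have hD0 := X.D_nonneg hX
  have h5 : ∀ c : ℝ, 8 * (2 * c * X.D - c ^ 2 * (1 - X.D)) ≤ 3 - 6 * X.D := by
    intro c
    have a1 := X.item1 hX c
    have a2 := item1c X hX c
    linarith
  have hD1 : X.D < 1 := by
    have h := h5 (1 / 2)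
    linarith
  have hpos : 0 < 1 - X.D := by linarith
  have h6 := h5 (X.D / (1 - X.D))
  have h7 : 2 * (X.D / (1 - X.D)) * X.D - (X.D / (1 - X.D)) ^ 2 * (1 - X.D)
      = X.D ^ 2 / (1 - X.D) := by
    field_simp
    ring
  rw [h7] at h6
  have h8 : 8 * X.D ^ 2 ≤ (3 - 6 * X.D) * (1 - X.D) := by
    have h9 : 8 * (X.D ^ 2 / (1 - X.D)) = 8 * X.D ^ 2 / (1 - X.D) := by ring
    rw [h9, div_le_iff₀ hpos] at h6
    exact h6
  have h9 : (4 * X.D + 9) ^ 2 ≤ 105 := by nlinarith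
  have h10 : 4 * X.D + 9 ≤ Real.sqrt 105 := Real.le_sqrt_of_sq_le h9
  linarith

end Pool.Agent.U60.PT
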