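import Mathlib
import Pool.Agent.TH635.BV.Thr2
import Pool.Agent.U60.PT.Main

set_option autoImplicit false

/-!
# The density statement for subsets of `[N]^2` above density `(√105 - 9) / 4`
-/

namespace Pool.Agent.U60.PT

open Finset Filter Topology Pool.Agent.TH7.DH Pool.Agent.TH635.BV Pool.Agent.TH635.PH.Thr

/-- The restricted density polynomial Hales-Jewett statement for `d = 2` and densities above
`(√105 - 9) / 4`. -/
theorem thr : ∀ δ : ℝ, (Real.sqrt 105 - 9) / 4 < δ →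
    ∃ N₀ : ℕ, ∀ N : ℕ, N₀ ≤ N → ∀ S : Finset (Finset (Fin 2 → Fin N)),
      δ * (2 : ℝ) ^ (N ^ 2) < S.card → Good S := by
  classical
  intro δ hδ
  by_contra hcon
  push Not at hcon
  set B : Set ℕ := {N | ∃ S : Finset (Finset (Fin 2 → Fin N)),
    δ * (2 : ℝ) ^ (N ^ 2) < S.card ∧ ¬ Good S} with hB
  have hfreq : ∃ᶠ N in (atTop : Filter ℕ), N ∈ B := by
    rw [frequently_atTop]
    intro N₀
    obtain ⟨N, hN, S, hS, hg⟩ := hcon N₀
    exact ⟨N, hN, S, hS, hg⟩
  have hne : NeBot ((atTop : Filter ℕ) ⊓ 𝓟 B) := frequently_mem_iff_neBot.1 hfreq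
  set V : Ultrafilter ℕ := Ultrafilter.of ((atTop : Filter ℕ) ⊓ 𝓟 B) with hVdef
  have hVle : (V : Filter ℕ) ≤ (atTop : Filter ℕ) ⊓ 𝓟 B := Ultrafilter.of_le _
  have hV1 : (V : Filter ℕ) ≤ atTop := hVle.trans inf_le_left
  have hV2 : B ∈ (V : Filter ℕ) := hVle (mem_inf_of_right (mem_principal_self B))
  have hch : ∀ N : ℕ, ∃ S : Finset (Finset (Fin 2 → Fin N)), ¬ Good S ∧
      (N ∈ B → δ * (2 : ℝ) ^ (N ^ 2) < S.card) := by
    intro N
    by_cases hN : N ∈ B
    · obtain ⟨S, hS, hg⟩ := hN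
      exact ⟨S, hg, fun _ => hS⟩
    · refine ⟨∅, ?_, fun h => (hN h).elim⟩
      rintro ⟨A, hA, -⟩
      exact absurd hA (notMem_empty _)
  choose S hSg hSd using hch
  let X : Fam := ⟨V, hV1, S⟩
  have hX : X.Bad := fun N ι _ φ A => adm_of_not_good (hSg N) φ A
  have hD : Tendsto (fun N => LN N (S N) (Fin 0) (fun U => f U (fun _ _ => True))) V (𝓝 X.D) :=
    X.tendsto (Fin 0) (fun U => f U (fun _ _ => True))
  have hval : ∀ N, LN N (S N) (Fin 0) (fun U => f U (fun _ _ => True))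
      = av (fun A => ind (S N) A) := by
    intro N
    unfold LN
    have h3 : ∀ φ : Fin 0 ↪ Fin N, av (fun A => f (fun P => ow φ P A ∈ S N) (fun _ _ => True))
        = av (fun A => ind (S N) A) := by
      intro φ
      congr 1
      funext A
      have h5 : ow φ (pt 0 fun _ _ => True) A = A := ow_empty (by norm_num) φ _ A
      have h7 : (fun P => ow φ P A ∈ S N) (pt 0 fun _ _ => True) ↔ A ∈ S N := by
        change (ow φ (pt 0 fun _ _ => True) A ∈ S N) ↔ _
        rw [h5]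
      unfold f ind
      by_cases h6 : A ∈ S N
      · rw [if_pos (h7.2 h6), if_pos h6]
      · rw [if_neg (fun h => h6 (h7.1 h)), if_neg h6]
    simp only [h3]
    have : Nonempty (Fin 0 ↪ Fin N) := ⟨⟨Fin.elim0, fun x => x.elim0⟩⟩
    rw [av_const]
  have hDδ : δ ≤ X.D := by
    refine ge_of_tendsto hD ?_
    filter_upwards [hV2] with N hN
    rw [hval, av_ind]
    have h1 : ((Fintype.card (Finset (Fin 2 → Fin N)) : ℕ) : ℝ) = 2 ^ (N ^ 2) := by
      rw [Fintype.card_finset]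
      simp
    rw [h1, le_div_iff₀ (by positivity)]
    exact (hSd N hN).le
  have := bound X hX
  linarith

end Pool.Agent.U60.PT
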